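import Pool.Agent.R285.SSE
import Pool.Agent.H21SS.X_helper269

/-!
# The coefficient problem for strongly starlike functions, a uniform range of orders

For every order `0 < α` with `13 α ^ 2 ≤ 1` (that is `α ≤ 0.2773...`) and every `n ≥ 2` the sharp
bound of the `n`-th coefficient of the strongly starlike functions of order `α` is
`2 α / (n - 1)`.
-/

set_option autoImplicit false
open Metric

namespace Pool.Agent.Results.MP_bdc337_an.UniformRange

/-- For all `0 < α` with `13 α ^ 2 ≤ 1` and ALL `n ≥ 2`: `max |a_n| = 2 α / (n - 1)` over the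
strongly starlike functions of order `α`. -/
theorem result (α : ℝ) (hα : 0 < α) (h13 : 13 * α ^ 2 ≤ 1) (n : ℕ) (hn : 2 ≤ n) :
    IsGreatest {x : ℝ | ∃ f : ℂ → ℂ, Pool.Agent.H21SS.SS α f ∧
      x = ‖iteratedDeriv n f 0 / (n.factorial : ℂ)‖} (2 * α / (n - 1)) := by
  have hα1 := Pool.Agent.R285.SS.alpha_lt h13
  constructor
  · obtain ⟨f, hf, h⟩ := Pool.Agent.H21SS.TaskX.main α n hα (by linarith) hn
    exact ⟨f, hf, h.symm⟩
  · rintro x ⟨f, hf, rfl⟩
    exact Pool.Agent.R285.SS.upper hα h13 hf hn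

end Pool.Agent.Results.MP_bdc337_an.UniformRange
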